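import Mathlib
import Pool.Agent.Q98.KOct3

set_option autoImplicit false

open Cardinal

open scoped ENNReal

namespace Pool.Agent.Results.MP_814c9d_an.OctahedralWithoutL1

universe u

/-- `X` is `κ`-octahedral: for each `ε > 0` and each subspace `Y` of density character at most `κ`
(i.e. some `D ⊆ Y` with `#D ≤ κ` is dense in `Y`) there is a unit vector `x` with
`‖c x + y‖ ≥ (1 - ε) (|c| + ‖y‖)` for all scalars `c` and all `y ∈ Y`. -/
def IsKappaOctahedral (κ : Cardinal.{u}) (X : Type u) [NormedAddCommGroup X] [NormedSpace ℝ X] :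
    Prop :=
  ∀ ε : ℝ, 0 < ε → ∀ Y : Submodule ℝ X,
    (∃ D : Set X, D ⊆ (Y : Set X) ∧ #D ≤ κ ∧ (Y : Set X) ⊆ closure D) →
    ∃ x : X, ‖x‖ = 1 ∧ ∀ c : ℝ, ∀ y ∈ Y, (1 - ε) * (|c| + ‖y‖) ≤ ‖c • x + y‖

/-- `X` contains an isomorphic copy of `ℓ₁(Γ)`: there is a bounded linear operator
`S : ℓ₁(Γ) → X` which is bounded below. -/
def ContainsL1 (Γ : Type u) (X : Type u) [NormedAddCommGroup X] [NormedSpace ℝ X] : Prop :=
  ∃ (S : lp (fun _ : Γ => ℝ) 1 →L[ℝ] X) (c : ℝ), 0 < c ∧ ∀ f, c * ‖f‖ ≤ ‖S f‖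

/-- **Theorem.** For every infinite cardinal `κ` there is a real Banach space which is
`κ`-octahedral and contains no isomorphic copy of `ℓ₁(Γ)` for any uncountable `Γ`
(in particular none of `ℓ₁(κ⁺)`). -/
theorem result (κ : Cardinal.{u}) (hκ : ℵ₀ ≤ κ) :
    ∃ (X : Type u) (_ : NormedAddCommGroup X) (_ : NormedSpace ℝ X) (_ : CompleteSpace X),
      IsKappaOctahedral κ X ∧ ∀ Γ : Type u, ℵ₀ < #Γ → ¬ ContainsL1 Γ X := by
  refine ⟨Q98.KOct.X (Order.succ κ).ord.ToType, inferInstance, inferInstance, inferInstance,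
    ?_, ?_⟩
  · rintro ε hε Y ⟨D, _, hD, hYD⟩
    exact Q98.KOct.octahedral κ hκ ε hε Y D hD hYD
  · rintro Γ hΓ ⟨S, c, hc, hS⟩
    have : Uncountable Γ := by
      rw [← Cardinal.aleph0_lt_mk_iff]; exact hΓ
    exact Q98.KOct.no_l1 Γ S c hc hS

end Pool.Agent.Results.MP_814c9d_an.OctahedralWithoutL1
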